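import Pool.Agent.H38.O1.N3

set_option autoImplicit false

/-!
End of case O1 (helper51): if all `th(a, b)` fix `b` then `T` is a homomorphism of the loop into the
group of inner mappings, so that a simple automorphic loop is commutative or a group.
-/

namespace ALoop

open Equiv

variable {Q : Type*} {G : Subgroup (Perm Q)} {L : Q → Perm Q} {J : Perm Q} {e : Q}

/-- `L_(b c)⁻¹ L_b L_c` -/
def Ph (L : Q → Perm Q) (b c : Q) : Perm Q := (L (L b c))⁻¹ * L b * L c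

/-- `(th(a, c) b) b⁻¹` -/
def Yy (L : Q → Perm Q) (J : Perm Q) (a c b : Q) : Q := L (Th L J a c b) (J b)

/-- the hypothesis `K7` -/
def K7 (L : Q → Perm Q) (J : Perm Q) : Prop := ∀ a b, Th L J a b b = b

namespace AL0

theorem K7a (h : AL0 G L J e) (K : K7 L J) (a b : Q) : Th L J a b a = a := by
  have h1 := K (J b) (J a)
  rw [h.Th_inv, Perm.inv_eq_iff_eq] at h1
  have h2 := h.fixJ (h.Th_mem a b) (h.Th_e a b) h1.symm
  rwa [h.JJ] at h2

theorem mapJ (h : AL0 G L J e) {g : Perm Q} (hg : g ∈ G) (he : g e = e) (x : Q) :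
    g (J x) = J (g x) := by
  have := congrArg (fun p : Perm Q => p x) (h.comJ g hg he)
  simpa only [Perm.mul_apply] using this

theorem ThJ (h : AL0 G L J e) (K : K7 L J) (a b : Q) : Th L J a (J b) = (Th L J a b)⁻¹ := by
  have h1 := h.K1 a b
  have h2 := h.Tx_cen b _ (h.Th_mem a b) (h.Th_e a b) (K a b)
  rw [← h2] at h1
  have h3 := mul_left_cancel h1
  rw [← h3, inv_inv]

theorem ThJ' (h : AL0 G L J e) (K : K7 L J) (a b : Q) : Th L J (J b) a = Th L J a b := by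
  have h1 := h.Th_inv a b
  rw [h.ThJ K] at h1
  exact inv_injective h1

theorem Th_swap (h : AL0 G L J e) (K : K7 L J) (a b : Q) : Th L J b a = (Th L J a b)⁻¹ := by
  have h1 := h.ThJ' K a (J b)
  rw [h.JJ, h.ThJ K] at h1
  exact h1

theorem ThJl (h : AL0 G L J e) (K : K7 L J) (a b : Q) : Th L J (J a) b = (Th L J a b)⁻¹ := by
  rw [h.ThJ' K, h.Th_swap K]

theorem IPR (h : AL0 G L J e) (K : K7 L J) (b : Q) : Rt L J b * Rt L J (J b) = 1 := by
  have hc : ∀ a, (Rt L J b * Rt L J (J b)) * L a = L a * (Rt L J b * Rt L J (J b)) := by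
    intro a
    obtain ⟨t, ht⟩ : ∃ t, t = Th L J a b := ⟨_, rfl⟩
    have h1 : Rt L J b * L a = L a * Rt L J b * t⁻¹ := by
      rw [ht]; unfold Th; group
    have h2 : Rt L J (J b) * L a = L a * Rt L J (J b) * t := by
      have h3 : Th L J a (J b) = t⁻¹ := by rw [h.ThJ K, ht]
      have h4 : Rt L J (J b) * L a = L a * Rt L J (J b) * (Th L J a (J b))⁻¹ := by
        unfold Th; group
      rw [h4, h3, inv_inv]
    have h5 : t * Rt L J (J b) = Rt L J (J b) * t := by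
      rw [ht]
      exact h.comR (h.Th_mem a b) (h.Th_e a b) (h.fixJ (h.Th_mem a b) (h.Th_e a b) (K a b))
    have h6 : t⁻¹ * Rt L J (J b) = Rt L J (J b) * t⁻¹ := by
      rw [inv_mul_eq_iff_eq_mul, ← mul_assoc, h5]; group
    calc (Rt L J b * Rt L J (J b)) * L a = Rt L J b * (Rt L J (J b) * L a) := by group
      _ = (Rt L J b * L a) * Rt L J (J b) * t := by rw [h2]; group
      _ = L a * Rt L J b * (t⁻¹ * Rt L J (J b)) * t := by rw [h1]; group
      _ = _ := by rw [h6]; group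
  ext x
  have h1 := congrArg (fun p : Perm Q => p e) (hc x)
  simp only [Perm.mul_apply] at h1
  have h2 : Rt L J b (J b) = e := by rw [h.Rt_app, h.JL]
  rw [h.Le, h.Rt_e, h2, h.Le] at h1
  rw [Perm.mul_apply, h1, Perm.one_apply]

theorem IPL (h : AL0 G L J e) (K : K7 L J) (b : Q) : L (J b) * L b = 1 := by
  have h1 := h.IPR K b
  have h2 : J * (Rt L J b * Rt L J (J b)) * J = L (J b) * L b := by
    have h3 := h.JRJ b
    have h4 := h.JRJ (J b)
    rw [h.JJ] at h4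
    calc J * (Rt L J b * Rt L J (J b)) * J = J * Rt L J b * 1 * Rt L J (J b) * J := by group
      _ = J * Rt L J b * (J * J) * Rt L J (J b) * J := by rw [h.JJ1]
      _ = (J * Rt L J b * J) * (J * Rt L J (J b) * J) := by group
      _ = _ := by rw [h3, h4]
  rw [← h2, h1, mul_one, h.JJ1]

theorem L_J (h : AL0 G L J e) (K : K7 L J) (b : Q) : L (J b) = (L b)⁻¹ :=
  eq_inv_of_mul_eq_one_left (h.IPL K b)

theorem R_J (h : AL0 G L J e) (K : K7 L J) (b : Q) : Rt L J (J b) = (Rt L J b)⁻¹ :=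
  eq_inv_of_mul_eq_one_right (h.IPR K b)

theorem lip (h : AL0 G L J e) (K : K7 L J) (b x : Q) : L (J b) (L b x) = x := by
  rw [h.L_J K, inv_apply']

theorem lip' (h : AL0 G L J e) (K : K7 L J) (b x : Q) : L b (L (J b) x) = x := by
  rw [h.L_J K, apply_inv']

theorem rip (h : AL0 G L J e) (K : K7 L J) (b x : Q) : L (L x b) (J b) = x := by
  rw [← h.Rt_app b x, ← h.Rt_app (J b), h.R_J K, inv_apply']

theorem rip' (h : AL0 G L J e) (K : K7 L J) (b x : Q) : L (L x (J b)) b = x := by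
  rw [← h.Rt_app (J b) x, ← h.Rt_app b, h.R_J K, apply_inv']

theorem rcan (h : AL0 G L J e) {x y z : Q} (h1 : L x z = L y z) : x = y := by
  rw [← h.Rt_app z x, ← h.Rt_app z y] at h1
  exact (Rt L J z).injective h1

/-- `a (y c) = (a (th(a,c) y)) c` -/
theorem th_app (h : AL0 G L J e) (a c y : Q) : L a (L y c) = L (L a (Th L J a c y)) c := by
  rw [← h.Rt_app c y, ← h.Rt_app c (L a _)]
  unfold Th
  simp only [Perm.mul_apply]
  rw [apply_inv', apply_inv']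

/-- associativity of a triple -/
def A3 (L : Q → Perm Q) (x y z : Q) : Prop := L x (L y z) = L (L x y) z

theorem A_th (h : AL0 G L J e) (x y z : Q) : A3 L x y z ↔ Th L J x z y = y := by
  unfold A3
  rw [h.th_app x z y]
  constructor
  · intro h1
    exact (L x).injective (h.rcan h1)
  · intro h1
    rw [h1]

theorem A_ph (x y z : Q) : A3 L x y z ↔ Ph L x y z = z := by
  unfold A3 Ph
  rw [Perm.mul_apply, Perm.mul_apply, Perm.inv_eq_iff_eq]

theorem Ph_mem (h : AL0 G L J e) (b c : Q) : Ph L b c ∈ G :=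
  G.mul_mem (G.mul_mem (G.inv_mem (h.memL _)) (h.memL _)) (h.memL _)

theorem Ph_e (h : AL0 G L J e) (b c : Q) : Ph L b c e = e := by
  unfold Ph
  rw [Perm.mul_apply, Perm.mul_apply, Perm.inv_eq_iff_eq, h.Le, h.Le]

theorem Ph_l (h : AL0 G L J e) (b c : Q) : Ph L b c b = b := by
  rw [← A_ph]
  exact h.flex' b c

theorem Ph_r (h : AL0 G L J e) (K : K7 L J) (b c : Q) : Ph L b c c = c := by
  rw [← A_ph, h.A_th]
  exact K b c

theorem Ph_lr (h : AL0 G L J e) (K : K7 L J) (b c : Q) : Ph L b c (L b c) = L b c := by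
  rw [h.aut (h.Ph_mem b c) (h.Ph_e b c), h.Ph_l, h.Ph_r K]

/-- `ph(c⁻¹, b⁻¹) = ph(b, c)⁻¹` -/
theorem Ph_inv (h : AL0 G L J e) (K : K7 L J) (b c : Q) : Ph L (J c) (J b) = (Ph L b c)⁻¹ := by
  have h1 : L (J c) (J b) = J (L b c) := (h.aaip b c).symm
  have h2 := h.comL (h.Ph_mem b c) (h.Ph_e b c) (h.Ph_lr K b c)
  have h3 : L b * L c = L (L b c) * Ph L b c := by unfold Ph; group
  have h4 : Ph L (J c) (J b) = L (L b c) * (L b * L c)⁻¹ := by
    unfold Ph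
    rw [h1, h.L_J K, h.L_J K, h.L_J K]; group
  rw [h4, h3, ← h2]; group

theorem Ph_J (h : AL0 G L J e) (b c : Q) : Ph L b c * J = J * Ph L b c :=
  h.comJ _ (h.Ph_mem b c) (h.Ph_e b c)

/-- `R_c R_b = R_(b c) ph(b, c)⁻¹` -/
theorem RR (h : AL0 G L J e) (K : K7 L J) (b c : Q) :
    Rt L J c * Rt L J b = Rt L J (L b c) * (Ph L b c)⁻¹ := by
  have h1 : L (J c) * L (J b) = L (L (J c) (J b)) * Ph L (J c) (J b) := by unfold Ph; group
  have h2 : L (J c) (J b) = J (L b c) := (h.aaip b c).symm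
  rw [h.Ph_inv K, h2] at h1
  have h3 : (Ph L b c)⁻¹ * J = J * (Ph L b c)⁻¹ := by
    rw [inv_mul_eq_iff_eq_mul, ← mul_assoc, h.Ph_J]; group
  unfold Rt
  calc J * L (J c) * J * (J * L (J b) * J) = J * L (J c) * (J * J) * L (J b) * J := by group
    _ = J * (L (J c) * L (J b)) * J := by rw [h.JJ1]; group
    _ = J * L (J (L b c)) * ((Ph L b c)⁻¹ * J) := by rw [h1]; group
    _ = _ := by rw [h3]; group

theorem ph_R (h : AL0 G L J e) (K : K7 L J) (a b c : Q) :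
    L (L a b) c = L ((Ph L b c)⁻¹ a) (L b c) := by
  have h1 := congrArg (fun p : Perm Q => p a) (h.RR K b c)
  simp only [Perm.mul_apply] at h1
  rw [h.Rt_app, h.Rt_app, h.Rt_app] at h1
  exact h1

theorem A13 (h : AL0 G L J e) (K : K7 L J) {x y z : Q} (h1 : A3 L x y z) : A3 L z y x := by
  rw [h.A_th] at h1 ⊢
  rw [h.Th_swap K, Perm.inv_eq_iff_eq, h1]

theorem AJ2 (h : AL0 G L J e) {x y z : Q} (h1 : A3 L x (J y) z) : A3 L x y z := by
  rw [h.A_th] at h1 ⊢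
  have h2 := h.fixJ (h.Th_mem x z) (h.Th_e x z) h1
  rwa [h.JJ] at h2

theorem AJ1 (h : AL0 G L J e) (K : K7 L J) {x y z : Q} (h1 : A3 L (J x) y z) : A3 L x y z := by
  rw [h.A_th] at h1 ⊢
  rw [h.ThJl K, Perm.inv_eq_iff_eq] at h1
  exact h1.symm

theorem A12 (h : AL0 G L J e) (K : K7 L J) {x y z : Q} (h1 : A3 L x y z) : A3 L y x z := by
  rw [A_ph] at h1
  have h2 : A3 L (J y) (J x) z := by
    rw [A_ph, h.Ph_inv K, Perm.inv_eq_iff_eq, h1]
  exact h.AJ2 (h.AJ1 K h2)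

theorem A23 (h : AL0 G L J e) (K : K7 L J) {x y z : Q} (h1 : A3 L x y z) : A3 L x z y :=
  h.A13 K (h.A12 K (h.A13 K h1))

/-- `Y b = th(a, c) b` -/
theorem Yy_b (h : AL0 G L J e) (K : K7 L J) (a c b : Q) : L (Yy L J a c b) b = Th L J a c b :=
  h.rip' K b _

/-- `T_u (th z z⁻¹) = th z z⁻¹` for `u = a, c` -/
theorem Tx_Yy (h : AL0 G L J e) (K : K7 L J) (a c z u : Q) (hu : u = a ∨ u = c) :
    Tx L J u (Yy L J a c z) = Yy L J a c z := by
  obtain ⟨s, hs⟩ : ∃ s, s = (L z)⁻¹ (Tx L J u z) := ⟨_, rfl⟩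
  have n1 : Nsp L s z := by rw [hs]; exact h.N3 u z
  have n2 : Nsp L s u := by rw [hs]; exact h.N4 u z
  have hz : L z s = Tx L J u z := by rw [hs, apply_inv']
  obtain ⟨t, ht⟩ : ∃ t, t = Th L J a c := ⟨_, rfl⟩
  have htG : t ∈ G := by rw [ht]; exact h.Th_mem a c
  have hte : t e = e := by rw [ht]; exact h.Th_e a c
  have htu : t u = u := by
    rcases hu with h1 | h1
    · rw [h1, ht]; exact h.K7a K a c
    · rw [h1, ht]; exact K a c
  have an : ∀ v, Nsp L s v → ∀ w, A3 L v s w := by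
    intro v hv w
    unfold A3
    have h1 := congrArg (fun p : Perm Q => p w) (show L v * L s = L (L v s) from hv)
    simpa only [Perm.mul_apply] using h1
  have hts : t s = s := by
    rw [ht, ← h.A_th]
    rcases hu with h1 | h1
    · rw [h1] at n2
      exact an a n2 c
    · rw [h1] at n2
      exact h.A13 K (an c n2 a)
  obtain ⟨y, hy⟩ : ∃ y, y = Yy L J a c z := ⟨_, rfl⟩
  have hyz : L y z = t z := by rw [hy, ht]; exact h.Yy_b K a c z
  rw [← hy]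
  have h1 : Tx L J u (t z) = L (t z) s := by
    have h2 := congrArg (fun p : Perm Q => p z) (h.Tx_cen u t htG hte htu)
    simp only [Perm.mul_apply] at h2
    rw [h2, ← hz, h.aut htG hte, hts]
  have h3 : Tx L J u (L y z) = L (Tx L J u y) (L z s) := by
    rw [h.aut (h.Tx_mem u) (h.Tx_e u), hz]
  have h4 : A3 L (Tx L J u y) z s := h.A13 K (h.A12 K (an z n1 _))
  unfold A3 at h4
  rw [h4, hyz, h1, ← hyz] at h3
  exact (h.rcan (h.rcan h3)).symm

/-- `ph(b, c) a = a (th(a, b) Y)` -/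
theorem E1 (h : AL0 G L J e) (K : K7 L J) (a b c : Q) :
    Ph L b c a = L a (Th L J a b (Yy L J a c b)) := by
  have h1 := h.th_app a c b
  rw [← h.Yy_b K a c b, h.th_app a b (Yy L J a c b), h.ph_R K] at h1
  have h2 := h.rcan h1
  rw [eq_comm, Perm.inv_eq_iff_eq] at h2
  exact h2.symm

/-- `(th⁻¹ b) b⁻¹ = (th⁻¹ Y)⁻¹` -/
theorem Yy_inv (h : AL0 G L J e) (K : K7 L J) (a c b : Q) :
    L ((Th L J a c)⁻¹ b) (J b) = J ((Th L J a c)⁻¹ (Yy L J a c b)) := by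
  obtain ⟨t, ht⟩ : ∃ t, t = (Th L J a c)⁻¹ := ⟨_, rfl⟩
  have htG : t ∈ G := by rw [ht]; exact G.inv_mem (h.Th_mem a c)
  have hte : t e = e := by rw [ht, Perm.inv_eq_iff_eq, h.Th_e]
  rw [← ht]
  have h1 := congrArg t (h.Yy_b K a c b)
  rw [h.aut htG hte] at h1
  have h2 : t (Th L J a c b) = b := by rw [ht, inv_apply']
  rw [h2] at h1
  have h3 : L (J (t (Yy L J a c b))) b = t b := by
    have h4 := h.lip K (t (Yy L J a c b)) (t b)
    rwa [h1] at h4
  rw [← h3, h.rip K]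

theorem Tx_app (h : AL0 G L J e) (a x : Q) : L (Tx L J a x) a = L a x := by
  rw [← h.Rt_app a (Tx L J a x)]
  have h1 : Rt L J a * Tx L J a = L a := by
    rw [← h.Tx_R]; unfold Tx; group
  rw [← Perm.mul_apply, h1]

/-- (F1) -/
theorem F1 (h : AL0 G L J e) (K : K7 L J) (a b c : Q) :
    (Th L J a b)⁻¹ ((Th L J a c)⁻¹ (Yy L J a c b)) = Th L J a b (Yy L J a c b) := by
  have h1 := h.E1 K (J a) b c
  have h2 : Yy L J (J a) c b = J ((Th L J a c)⁻¹ (Yy L J a c b)) := by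
    rw [← h.Yy_inv K, ← h.ThJl K]; rfl
  have hbG := G.inv_mem (h.Th_mem a b)
  have hbe : (Th L J a b)⁻¹ e = e := by rw [Perm.inv_eq_iff_eq, h.Th_e]
  rw [h2, h.ThJl K, h.mapJ hbG hbe, h.mapJ (h.Ph_mem b c) (h.Ph_e b c)] at h1
  have h3 := congrArg J h1
  rw [h.JJ, h.aaip, h.JJ, h.JJ, h.E1 K, ← h.Tx_app a] at h3
  have h4 := congrArg (fun p : Perm Q => p (Yy L J a c b))
    (h.Tx_cen a _ (h.Th_mem a b) (h.Th_e a b) (h.K7a K a b))
  simp only [Perm.mul_apply] at h4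
  rw [h4, h.Tx_Yy K a c b a (Or.inl rfl)] at h3
  exact (h.rcan h3).symm

/-- (F3) -/
theorem F3 (h : AL0 G L J e) (K : K7 L J) (ho : ∀ g ∈ G, ∀ x, g (g x) = x → g x = x)
    (a b c : Q) : Th L J a b (Yy L J a c b) = Yy L J a c b ∧
      Th L J a c (Yy L J a c b) = Yy L J a c b := by
  have h1 := h.F1 K a b c
  have h2 := h.F1 K a b (J c)
  have h3 : Yy L J a (J c) b = J ((Th L J a c)⁻¹ (Yy L J a c b)) := by
    rw [← h.Yy_inv K, ← h.ThJ K]; rfl
  obtain ⟨y, hy⟩ : ∃ y, y = Yy L J a c b := ⟨_, rfl⟩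
  rw [h3, h.ThJ K, inv_inv, ← hy] at h2
  rw [← hy] at h1 ⊢
  obtain ⟨p, hp⟩ : ∃ p, p = Th L J a b := ⟨_, rfl⟩
  obtain ⟨q, hq⟩ : ∃ q, q = Th L J a c := ⟨_, rfl⟩
  have hpG : p ∈ G := by rw [hp]; exact h.Th_mem a b
  have hpe : p e = e := by rw [hp]; exact h.Th_e a b
  have hqG : q ∈ G := by rw [hq]; exact h.Th_mem a c
  have hqe : q e = e := by rw [hq]; exact h.Th_e a c
  have hpe' : p⁻¹ e = e := by rw [Perm.inv_eq_iff_eq, hpe]
  have hqe' : q⁻¹ e = e := by rw [Perm.inv_eq_iff_eq, hqe]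
  rw [← hp, ← hq] at h1 h2
  rw [h.mapJ hqG hqe, apply_inv', h.mapJ (G.inv_mem hpG) hpe', h.mapJ hpG hpe] at h2
  have h4 := J.injective h2
  rw [Perm.inv_eq_iff_eq] at h1
  have h5 : p (p (p (p y))) = y := by
    have h6 : y = p (p (q⁻¹ y)) := by
      rw [← h4, apply_inv']
    rw [h1] at h6
    exact h6.symm
  have h7 : p (p y) = y := by
    have h8 := ho (p * p) (G.mul_mem hpG hpG) y
    simp only [Perm.mul_apply] at h8
    exact h8 h5
  have h9 : p y = y := ho p hpG y h7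
  refine ⟨by rw [← hp]; exact h9, ?_⟩
  rw [← hq]
  rw [h7, Perm.inv_eq_iff_eq] at h1
  exact h1.symm

theorem F3' (h : AL0 G L J e) (K : K7 L J) (ho : ∀ g ∈ G, ∀ x, g (g x) = x → g x = x)
    (a b c : Q) : Th L J c b (Yy L J a c b) = Yy L J a c b := by
  have h1 := (h.F3 K ho c b a).1
  have h2 : Yy L J c a b = J (Yy L J a c b) := by
    have h3 := h.Yy_inv K a c b
    rw [← h.Th_swap K] at h3
    have h4 : (Th L J c a) (Yy L J a c b) = Yy L J a c b := by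
      rw [h.Th_swap K, Perm.inv_eq_iff_eq, (h.F3 K ho a b c).2]
    rw [h4] at h3
    exact h3
  rw [h2] at h1
  have h5 := h.fixJ (h.Th_mem c b) (h.Th_e c b) h1
  rwa [h.JJ] at h5

/-- `ph(b, c) a = a Y` -/
theorem E2 (h : AL0 G L J e) (K : K7 L J) (ho : ∀ g ∈ G, ∀ x, g (g x) = x → g x = x)
    (a b c : Q) : Ph L b c a = L a (Yy L J a c b) := by
  rw [h.E1 K, (h.F3 K ho a b c).1]

/-- `Y(a, c⁻¹, b⁻¹)` -/
theorem Yy_JJ (h : AL0 G L J e) (K : K7 L J) (ho : ∀ g ∈ G, ∀ x, g (g x) = x → g x = x)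
    (a b c : Q) : Tx L J b (Yy L J a (J c) (J b)) = Yy L J a c b := by
  obtain ⟨y, hy⟩ : ∃ y, y = Yy L J a c b := ⟨_, rfl⟩
  have h1 : (Th L J a c)⁻¹ b = L (J y) b := by
    have h2 := h.Yy_inv K a c b
    have h3 : (Th L J a c)⁻¹ y = y := by
      rw [Perm.inv_eq_iff_eq, hy, (h.F3 K ho a b c).2]
    rw [← hy, h3] at h2
    rw [← h2, h.rip' K]
  have h4 : Yy L J a (J c) (J b) = L (L (J b) y) b := by
    unfold Yy
    rw [h.ThJ K, h.JJ, h.mapJ (G.inv_mem (h.Th_mem a c)) (by rw [Perm.inv_eq_iff_eq, h.Th_e]), h1,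
      h.aaip, h.JJ]
  rw [h4, ← hy]
  apply h.rcan (z := b)
  rw [h.Tx_app, h.flex', h.lip' K]

/-- (R1) -/
theorem R1 (h : AL0 G L J e) (K : K7 L J) (ho : ∀ g ∈ G, ∀ x, g (g x) = x → g x = x)
    (a b c : Q) : Yy L J a (J c) (J b) = J (Yy L J a b c) := by
  obtain ⟨q, hq⟩ : ∃ q, q = Yy L J a (J c) (J b) := ⟨_, rfl⟩
  have h1 := h.E2 K ho a (J b) (J c)
  rw [h.Ph_inv K, ← hq, Perm.inv_eq_iff_eq, h.aut (h.Ph_mem c b) (h.Ph_e c b),
    h.E2 K ho a c b] at h1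
  have hTq : Tx L J b q = Yy L J a c b := by rw [hq]; exact h.Yy_JJ K ho a b c
  have h2 : Ph L c b q = q := by
    apply (Tx L J b).injective
    have h3 := congrArg (fun p : Perm Q => p q)
      (h.Tx_cen b _ (h.Ph_mem c b) (h.Ph_e c b) (h.Ph_r K c b))
    simp only [Perm.mul_apply] at h3
    rw [h3, hTq, ← A_ph]
    apply h.A23 K
    rw [h.A_th]
    exact h.F3' K ho a b c
  rw [h2] at h1
  have h4 : L (L a (Yy L J a b c)) (J (Yy L J a b c)) = a := h.rip K _ _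
  rw [← hq]
  apply (L (L a (Yy L J a b c))).injective
  rw [← h1, h4]

theorem Ph_swap (h : AL0 G L J e) (K : K7 L J) (ho : ∀ g ∈ G, ∀ x, g (g x) = x → g x = x)
    (b c : Q) : Ph L c b = (Ph L b c)⁻¹ := by
  have key : ∀ a, Yy L J a (J c) (J b) = Yy L J a c b := by
    intro a
    have h1 := h.Yy_JJ K ho a c b
    rw [h.R1 K ho a c b, h.mapJ (h.Tx_mem c) (h.Tx_e c), h.Tx_Yy K a c b c (Or.inr rfl)] at h1
    rw [h.R1 K ho a b c, ← h1, h.JJ]
  have h2 : (Ph L c b)⁻¹ = Ph L b c := by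
    rw [← h.Ph_inv K]
    ext a
    rw [h.E2 K ho, h.E2 K ho, key]
  rw [← h2, inv_inv]

/-- `th(c, b) = ph(b, c)⁻¹ ph(c, b)` -/
theorem Th_Ph (h : AL0 G L J e) (K : K7 L J) (b c : Q) :
    Th L J c b = (Ph L b c)⁻¹ * Ph L c b := by
  have h1 : Rt L J b = (Tx L J b)⁻¹ * L b := by unfold Tx; group
  have h2 := h.equi _ (h.Tx_mem b) (h.Tx_e b) c
  have h3 := h.Tx_cen b _ (h.Ph_mem c b) (h.Ph_e c b) (h.Ph_r K c b)
  have h4 : Ph L (Tx L J b c) b = Ph L c b := by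
    have h5 := h.equi _ (h.Tx_mem b) (h.Tx_e b) (L c b)
    have h6 := h.aut (h.Tx_mem b) (h.Tx_e b) c b
    have h7 := h.Tx_L b
    rw [h.Tx_x] at h6
    have h8 : Ph L (Tx L J b c) b = Tx L J b * Ph L c b * (Tx L J b)⁻¹ := by
      unfold Ph
      rw [← h6, ← h5, ← h2]
      calc (Tx L J b * L (L c b) * (Tx L J b)⁻¹)⁻¹ * (Tx L J b * L c * (Tx L J b)⁻¹) * L b =
          Tx L J b * (L (L c b))⁻¹ * L c * (Tx L J b)⁻¹ * (L b * Tx L J b) * (Tx L J b)⁻¹ := by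
            group
        _ = _ := by rw [← h7]; group
    rw [h8, h3]; group
  have h9 : L (Tx L J b c) * L b = L b * L c * (Ph L b c)⁻¹ * Ph L c b := by
    have e1 : L (Tx L J b c) * L b = L (L (Tx L J b c) b) * Ph L (Tx L J b c) b := by
      unfold Ph; group
    rw [e1, h.Tx_app, h4]
    unfold Ph; group
  unfold Th
  rw [h1]
  calc (L c)⁻¹ * ((Tx L J b)⁻¹ * L b)⁻¹ * L c * ((Tx L J b)⁻¹ * L b) =
      (L c)⁻¹ * (L b)⁻¹ * (Tx L J b * L c * (Tx L J b)⁻¹) * L b := by group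
    _ = (L c)⁻¹ * (L b)⁻¹ * (L (Tx L J b c) * L b) := by rw [h2]; group
    _ = _ := by rw [h9]; group

/-- `T` is a homomorphism -/
theorem Tx_hom (h : AL0 G L J e) (K : K7 L J) (ho : ∀ g ∈ G, ∀ x, g (g x) = x → g x = x)
    (b c : Q) : Tx L J (L b c) = Tx L J b * Tx L J c := by
  obtain ⟨p, hp⟩ : ∃ p, p = Ph L b c := ⟨_, rfl⟩
  have hpG : p ∈ G := by rw [hp]; exact h.Ph_mem b c
  have hpe : p e = e := by rw [hp]; exact h.Ph_e b c
  have hpb : p b = b := by rw [hp]; exact h.Ph_l b c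
  have hpc : p c = c := by rw [hp]; exact h.Ph_r K b c
  have c2 := h.comL hpG hpe hpc
  have c3 := h.comR hpG hpe hpb
  have c4 := h.comR hpG hpe hpc
  have h1 : L b * L c = L (L b c) * p := by rw [hp]; unfold Ph; group
  have h2 : Rt L J c * Rt L J b = Rt L J (L b c) * p⁻¹ := by rw [hp]; exact h.RR K b c
  have h3 : Th L J c b = p⁻¹ * p⁻¹ := by rw [h.Th_Ph K, h.Ph_swap K ho b c, hp]
  have h4 : L c * Rt L J b = Rt L J b * L c * (p⁻¹ * p⁻¹) := by
    rw [← h3]; unfold Th; group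
  have d3 : (Rt L J b)⁻¹ * p = p * (Rt L J b)⁻¹ := by
    rw [inv_mul_eq_iff_eq_mul, ← mul_assoc, ← c3]; group
  have d4 : (Rt L J c)⁻¹ * p = p * (Rt L J c)⁻¹ := by
    rw [inv_mul_eq_iff_eq_mul, ← mul_assoc, ← c4]; group
  have h5 : L c * (Rt L J b)⁻¹ = (Rt L J b)⁻¹ * L c * (p * p) := by
    have e1 : (Rt L J b)⁻¹ * L c * (p * p) = (Rt L J b)⁻¹ * (L c * Rt L J b * (p * p)) *
        (Rt L J b)⁻¹ * ((p * p)⁻¹ * (Rt L J b) * (p * p) * (Rt L J b)⁻¹) := by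
      have e2 : (p * p)⁻¹ * (Rt L J b) * (p * p) * (Rt L J b)⁻¹ = 1 := by
        have e3 : (p * p) * Rt L J b = Rt L J b * (p * p) := by
          rw [mul_assoc, c3, ← mul_assoc, c3, mul_assoc]
        calc (p * p)⁻¹ * (Rt L J b) * (p * p) * (Rt L J b)⁻¹ =
            (p * p)⁻¹ * ((Rt L J b) * (p * p)) * (Rt L J b)⁻¹ := by group
          _ = _ := by rw [← e3]; group
      rw [e2, mul_one]
      have e3 : (p * p) * Rt L J b = Rt L J b * (p * p) := by
        rw [mul_assoc, c3, ← mul_assoc, c3, mul_assoc]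
      calc (Rt L J b)⁻¹ * L c * (p * p) =
          (Rt L J b)⁻¹ * L c * ((p * p) * Rt L J b) * (Rt L J b)⁻¹ := by group
        _ = _ := by rw [e3]; group
    rw [e1]
    have e4 : (p * p)⁻¹ * (Rt L J b) * (p * p) * (Rt L J b)⁻¹ = 1 := by
      have e3 : (p * p) * Rt L J b = Rt L J b * (p * p) := by
        rw [mul_assoc, c3, ← mul_assoc, c3, mul_assoc]
      calc (p * p)⁻¹ * (Rt L J b) * (p * p) * (Rt L J b)⁻¹ =
          (p * p)⁻¹ * ((Rt L J b) * (p * p)) * (Rt L J b)⁻¹ := by group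
        _ = _ := by rw [← e3]; group
    rw [e4, mul_one, h4]
    group
  have h6 : L (L b c) = L b * L c * p⁻¹ := by rw [h1]; group
  have h7 : Rt L J (L b c) = Rt L J c * Rt L J b * p := by rw [h2]; group
  have d4' : p⁻¹ * (Rt L J c)⁻¹ = (Rt L J c)⁻¹ * p⁻¹ := by
    rw [inv_mul_eq_iff_eq_mul, ← mul_assoc, ← d4]; group
  unfold Tx
  rw [h6, h7]
  have d3' : p⁻¹ * (Rt L J b)⁻¹ = (Rt L J b)⁻¹ * p⁻¹ := by
    rw [inv_mul_eq_iff_eq_mul, ← mul_assoc, ← d3]; group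
  calc L b * L c * p⁻¹ * (Rt L J c * Rt L J b * p)⁻¹ =
      L b * L c * p⁻¹ * (p⁻¹ * (Rt L J b)⁻¹) * (Rt L J c)⁻¹ := by group
    _ = L b * L c * p⁻¹ * ((Rt L J b)⁻¹ * p⁻¹) * (Rt L J c)⁻¹ := by rw [d3']
    _ = L b * L c * (p⁻¹ * (Rt L J b)⁻¹) * p⁻¹ * (Rt L J c)⁻¹ := by group
    _ = L b * L c * ((Rt L J b)⁻¹ * p⁻¹) * p⁻¹ * (Rt L J c)⁻¹ := by rw [d3']
    _ = L b * (L c * (Rt L J b)⁻¹) * p⁻¹ * p⁻¹ * (Rt L J c)⁻¹ := by group
    _ = _ := by rw [h5]; group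

theorem Tx_equi (h : AL0 G L J e) {k : Perm Q} (hk : k ∈ G) (hke : k e = e) (a : Q) :
    Tx L J (k a) = k * Tx L J a * k⁻¹ := by
  have h1 := h.equi k hk hke a
  have h2 := h.equi k hk hke (J a)
  have h3 := h.comJ k hk hke
  rw [h.mapJ hk hke] at h2
  have h4 : k⁻¹ * J = J * k⁻¹ := by
    rw [inv_mul_eq_iff_eq_mul, ← mul_assoc, h3]; group
  have h5 : Rt L J (k a) = k * Rt L J a * k⁻¹ := by
    unfold Rt
    rw [← h2]
    calc J * (k * L (J a) * k⁻¹) * J = (J * k) * L (J a) * (k⁻¹ * J) := by group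
      _ = _ := by rw [← h3, h4]; group
  unfold Tx
  rw [← h1, h5]; group

end AL0

/-- END of case O1: `K7` implies that a simple automorphic loop of odd order is associative or
commutative. -/
theorem AL.assoc_or_comm_of_K7 (h : AL G L J e) (ho : ∀ g ∈ G, ∀ x, g (g x) = x → g x = x)
    (K : ∀ a b, Th L J a b b = b) : Assoc L ∨ ∀ x y, L x y = L y x := by
  have h0 := h.al0
  have hT := h0.Tx_hom K ho
  have hG : ∀ g ∈ G, ∀ a b, Tx L J a = Tx L J b → Tx L J (g a) = Tx L J (g b) := by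
    intro g hg a b hab
    have key : ∀ x, Tx L J (g x) = Tx L J (g e) * ((L (g e))⁻¹ * g) * Tx L J x *
        ((L (g e))⁻¹ * g)⁻¹ := by
      intro x
      have hk : (L (g e))⁻¹ * g ∈ G := G.mul_mem (G.inv_mem (h0.memL _)) hg
      have hke : ((L (g e))⁻¹ * g) e = e := by
        rw [Perm.mul_apply, Perm.inv_eq_iff_eq, h0.Le]
      have h5 : g x = L (g e) (((L (g e))⁻¹ * g) x) := by
        rw [Perm.mul_apply, apply_inv']
      rw [h5, hT, h0.Tx_equi hk hke]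
      group
    rw [key a, key b, hab]
  rcases h.prim (fun a b => Tx L J a = Tx L J b) ⟨fun _ => rfl, fun h1 => h1.symm,
    fun h1 h2 => h1.trans h2⟩ hG with h1 | h1
  · left
    intro x y z
    apply h1
    rw [hT, hT, hT, hT, mul_assoc]
  · right
    intro x y
    have h2 := h1 x e
    have h3 : Tx L J e = 1 := by
      have h4 := hT e e
      rw [h0.Le] at h4
      exact (mul_eq_left.mp h4.symm)
    rw [h3] at h2
    have h4 := h0.L_eq x
    rw [h2, one_mul] at h4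
    rw [h4, h0.Rt_app]

end ALoop
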